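import Pool.Agent.Helper50.Drop.CoDefs

/-!
# Continuity of evaluation on `H¹` loops, fine meshes, Stokes for `evc`
-/

set_option autoImplicit false

namespace Pool.Agent.Helper50.Drop

open Finset MeasureTheory
open scoped RealInnerProductSpace
open Pool.Agent.Helper76.Freq (Q ins tr gr ev cobd cup Pr Adm gp Dep Nrm R3 E6 ver pt qf IsTop IsBot
  H4 exists_isTop exists_isBot)

/-! ### continuity of evaluation -/

instance isProbabilityMeasure_restrict_Icc :
    IsProbabilityMeasure ((volume : Measure ℝ).restrict (Set.Icc (0 : ℝ) 1)) :=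
  ⟨by rw [Measure.restrict_apply_univ, Real.volume_Icc]; simp⟩

theorem Vel.integrableOn {n : ℕ} (u : Vel n) : IntegrableOn u (Set.Icc (0 : ℝ) 1) volume :=
  (Lp.memLp u).integrable (by norm_num)

theorem Vel.intervalIntegrable {n : ℕ} (u : Vel n) {t : ℝ} (ht : t ∈ Set.Icc (0 : ℝ) 1) :
    IntervalIntegrable u volume 0 t := by
  rw [intervalIntegrable_iff_integrableOn_Icc_of_le ht.1]
  exact u.integrableOn.mono_set (Set.Icc_subset_Icc_right ht.2)

theorem Vel.norm_integral_le {n : ℕ} (u : Vel n) {t : ℝ} (ht : t ∈ Set.Icc (0 : ℝ) 1) :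
    ‖∫ s in (0 : ℝ)..t, u s‖ ≤ ‖u‖ := by
  have h1 : ‖∫ s in (0 : ℝ)..t, u s‖ ≤ ∫ s in Set.Icc (0 : ℝ) 1, ‖u s‖ := by
    refine (intervalIntegral.norm_integral_le_integral_norm ht.1).trans ?_
    rw [intervalIntegral.integral_of_le ht.1]
    refine setIntegral_mono_set u.integrableOn.norm ?_ ?_
    · exact Filter.Eventually.of_forall fun s => norm_nonneg _
    · exact (Set.Ioc_subset_Icc_self.trans (Set.Icc_subset_Icc_right ht.2)).eventuallyLE
  refine h1.trans ?_
  have h2 : ∫ s in Set.Icc (0 : ℝ) 1, ‖u s‖ =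
      (eLpNorm u 1 (volume.restrict (Set.Icc (0 : ℝ) 1))).toReal := by
    rw [eLpNorm_one_eq_lintegral_enorm, integral_norm_eq_lintegral_enorm]
    exact (Lp.memLp u).1
  rw [h2, Lp.norm_def]
  refine ENNReal.toReal_mono (Lp.eLpNorm_ne_top u) ?_
  exact eLpNorm_le_eLpNorm_of_exponent_le (by norm_num) (Lp.memLp u).1

theorem Vel.integral_sub {n : ℕ} (u u' : Vel n) {t : ℝ} (ht : t ∈ Set.Icc (0 : ℝ) 1) :
    (∫ s in (0 : ℝ)..t, u s) - ∫ s in (0 : ℝ)..t, u' s = ∫ s in (0 : ℝ)..t, (u - u') s := by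
  rw [← intervalIntegral.integral_sub (u.intervalIntegrable ht) (u'.intervalIntegrable ht)]
  refine intervalIntegral.integral_congr_ae_restrict ?_
  have h1 := Lp.coeFn_sub u u'
  have h2 : Set.uIoc 0 t ⊆ Set.Icc (0 : ℝ) 1 := by
    rw [Set.uIoc_of_le ht.1]
    exact Set.Ioc_subset_Icc_self.trans (Set.Icc_subset_Icc_right ht.2)
  have h3 := ae_restrict_of_ae_restrict_of_subset h2 h1
  filter_upwards [h3] with s hs
  rw [hs]
  rfl

theorem continuous_primitive_vel {n : ℕ} :
    Continuous fun p : Vel n × unitInterval => ∫ s in (0 : ℝ)..p.2, p.1 s := by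
  refine continuous_prod_of_continuous_lipschitzWith _ 1 (fun u => ?_) fun t => ?_
  · have h := intervalIntegral.continuousOn_primitive_interval (f := u) (μ := volume) (a := 0)
      (b := 1) (by rw [Set.uIcc_of_le zero_le_one]; exact u.integrableOn)
    rw [Set.uIcc_of_le zero_le_one] at h
    exact h.comp_continuous continuous_subtype_val fun t => t.2
  · refine LipschitzWith.of_dist_le_mul fun u u' => ?_
    rw [dist_eq_norm, dist_eq_norm, NNReal.coe_one, one_mul, Vel.integral_sub u u' t.2]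
    exact Vel.norm_integral_le _ t.2

theorem continuous_curve : Continuous fun p : LoopSpace 4 × unitInterval => curve p.1.1 p.2 := by
  have h1 : Continuous fun p : LoopSpace 4 × unitInterval => (p.1.1 : E 4 × Vel 4) :=
    continuous_subtype_val.comp continuous_fst
  have h2 : Continuous fun p : LoopSpace 4 × unitInterval => (p.1.1.2, p.2) :=
    (continuous_snd.comp h1).prodMk continuous_snd
  exact (continuous_fst.comp h1).add (continuous_primitive_vel.comp h2)

/-! ### fine meshes -/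

theorem abs_gr_sub_gr_le {M k a b : ℕ} (hk : k < M) (ha : a ≤ 1) (hb : b ≤ 1) :
    |((gr M (k + a) : unitInterval) : ℝ) - (gr M (k + b) : unitInterval)| ≤ 1 / M := by
  have hM : (0 : ℝ) < M := by exact_mod_cast (Nat.zero_le k).trans_lt hk
  rw [Pool.Agent.Helper76.Freq.coe_gr (by omega), Pool.Agent.Helper76.Freq.coe_gr (by omega),
    ← sub_div, abs_div, abs_of_pos hM, div_le_div_iff_of_pos_right hM]
  push_cast
  have ha' : (a : ℝ) ≤ 1 := by exact_mod_cast ha
  have hb' : (b : ℝ) ≤ 1 := by exact_mod_cast hb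
  have ha0 : (0 : ℝ) ≤ a := Nat.cast_nonneg a
  have hb0 : (0 : ℝ) ≤ b := Nat.cast_nonneg b
  rw [abs_le]
  constructor <;> linarith

/-- the grids of a continuous cube of loops are small if they are fine enough -/
theorem small_gp {d : ℕ} {c : Cube (LoopSpace 4) d} (hc : Continuous c) {δ : ℝ} (hδ : 0 < δ) :
    ∃ K : ℕ, ∀ M ≥ K, ∀ N ≥ K, ∀ k pos : ℕ → ℕ, Adm d (fun _ => M) k pos →
      Small δ N d (fun j => c fun i => gp d (fun _ => M) k pos j i) := by
  have h1 : Continuous fun p : (Fin d → unitInterval) × unitInterval => curve (c p.1).1 p.2 :=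
    continuous_curve.comp ((hc.comp continuous_fst).prodMk continuous_snd)
  have h2 := CompactSpace.uniformContinuous_of_continuous h1
  rw [Metric.uniformContinuous_iff] at h2
  obtain ⟨η, hη, h⟩ := h2 δ hδ
  obtain ⟨m, hm⟩ := exists_nat_gt (1 / η)
  have key : ∀ m' : ℕ, m + 1 ≤ m' → 1 / (m' : ℝ) < η := by
    intro m' hm'
    have h1 : (m : ℝ) + 1 ≤ m' := by exact_mod_cast hm'
    have h2 : 1 / η < m' := by linarith
    have h3 : (0 : ℝ) < m' := lt_trans (by positivity) h2
    rw [div_lt_iff₀ h3]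
    rwa [div_lt_iff₀ hη, mul_comm] at h2
  refine ⟨m + 1, fun M hM N hN k pos hk i _ j _ t t' ht => ?_⟩
  have h3 : dist ((fun l : Fin d => gp d (fun _ => M) k pos i l), t)
      ((fun l : Fin d => gp d (fun _ => M) k pos j l), t') < η := by
    rw [Prod.dist_eq, max_lt_iff]
    constructor
    · rw [dist_pi_lt_iff hη]
      intro l
      refine lt_of_le_of_lt ?_ (key M hM)
      simp only [gp, l.2, if_true]
      refine abs_gr_sub_gr_le (hk.cell l l.2) ?_ ?_ <;> split_ifs <;> omega
    · exact lt_of_le_of_lt ht (key N hN)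
  have h4 := h h3
  rwa [dist_eq_norm] at h4

theorem exists_common {α : Type*} (s : Finset α) (P : α → ℕ → Prop)
    (hP : ∀ a m m', m ≤ m' → P a m → P a m') (h : ∀ a ∈ s, ∃ m, P a m) : ∃ m, ∀ a ∈ s, P a m := by
  classical
  induction s using Finset.induction_on with
  | empty => exact ⟨0, by simp⟩
  | insert a s ha ih =>
    obtain ⟨m, hm⟩ := ih fun b hb => h b (Finset.mem_insert_of_mem hb)
    obtain ⟨m', hm'⟩ := h a (Finset.mem_insert_self a s)
    refine ⟨max m m', fun b hb => ?_⟩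
    rcases Finset.mem_insert.1 hb with rfl | hb
    · exact hP _ _ _ (le_max_right _ _) hm'
    · exact hP _ _ _ (le_max_left _ _) (hm b hb)

theorem evc_small {R : Type*} [CommRing R] {d : ℕ} {S : Set (LoopSpace 4)}
    {w : Cube (LoopSpace 4) d →₀ ℤ} (hw : w ∈ chains (LoopSpace 4) S d) {δ : ℝ} (hδ : 0 < δ)
    (Φ Ψ : ℕ → (ℕ → LoopSpace 4) → R)
    (h : ∀ N, 0 < N → ∀ γ, (∀ i ≤ d, γ i ∈ S) → Small δ N d γ → Φ N γ = Ψ N γ) :
    ∃ K, ∀ M ≥ K, ∀ N ≥ K, evc M d (Φ N) w = evc M d (Ψ N) w := by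
  obtain ⟨K, hK⟩ := exists_common w.support (fun c K => ∀ M ≥ K, ∀ N ≥ K, ∀ k pos : ℕ → ℕ,
    Adm d (fun _ => M) k pos → Small δ N d (fun j => c fun i => gp d (fun _ => M) k pos j i))
    (fun c m m' hm h M hM N hN => h M (hm.trans hM) N (hm.trans hN))
    (fun c hc => small_gp (hw (Finset.mem_coe.2 hc)).1 hδ)
  refine ⟨K + 1, fun M hM N hN => ?_⟩
  unfold evc
  rw [Finsupp.linearCombination_apply, Finsupp.linearCombination_apply]
  refine Finsupp.sum_congr fun c hc => ?_
  congr 1
  refine Pool.Agent.Helper76.Freq.ev_congr fun k pos hk => ?_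
  refine h N (by omega) _ (fun i _ => (hw (Finset.mem_coe.2 hc)).2 _) ?_
  exact hK c hc M (by omega) N (by omega) k pos hk

/-! ### Stokes -/

theorem insertNth_eq_ins {d : ℕ} (i : Fin (d + 1)) (e : unitInterval) (x : Q) :
    Fin.insertNth (α := fun _ => unitInterval) i e (fun j : Fin d => x j) =
      fun j : Fin (d + 1) => ins i e x j := by
  funext j
  change Fin.insertNth (α := fun _ => unitInterval) i e (fun j : Fin d => x j) j =
    if (j : ℕ) < (i : ℕ) then x j else if (j : ℕ) = (i : ℕ) then e else x ((j : ℕ) - 1)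
  have hj := j.2
  have hi := i.2
  by_cases h1 : (j : ℕ) < (i : ℕ)
  · rw [if_pos h1]
    have : j = i.succAbove ⟨j, by omega⟩ := by
      rw [Fin.succAbove_of_castSucc_lt]
      · rfl
      · exact h1
    rw [this, Fin.insertNth_apply_succAbove, ← this]
  · by_cases h2 : (j : ℕ) = (i : ℕ)
    · rw [if_neg h1, if_pos h2]
      have : j = i := Fin.ext h2
      rw [this, Fin.insertNth_apply_same]
    · rw [if_neg h1, if_neg h2]
      have : j = i.succAbove ⟨j - 1, by omega⟩ := by
        rw [Fin.succAbove_of_le_castSucc]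
        · apply Fin.ext
          change (j : ℕ) = j - 1 + 1
          omega
        · change (i : ℕ) ≤ j - 1
          omega
      rw [this, Fin.insertNth_apply_succAbove, ← this]

theorem evc_bdry {R : Type*} [CommRing R] {Y : Type} {d M : ℕ} (hM : 0 < M) {Φ : (ℕ → Y) → R}
    (hΦ : Dep d Φ) (w : Cube Y (d + 1) →₀ ℤ) :
    evc M d Φ (bdry Y d w) = evc M (d + 1) (cobd d Φ) w := by
  rw [bdry, Finsupp.apply_linearCombination]
  unfold evc
  rw [Finsupp.linearCombination_apply, Finsupp.linearCombination_apply]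
  refine Finsupp.sum_congr fun c _ => ?_
  congr 1
  rw [Pool.Agent.Helper76.Freq.stokes (Ms := fun _ => M) (fun _ => hM) hΦ, Finset.sum_range]
  simp only [Function.comp, map_sum, map_smul, map_sub, Finsupp.linearCombination_single,
    one_smul, insertNth_eq_ins]
  refine Finset.sum_congr rfl fun i _ => ?_
  rw [zsmul_eq_mul]
  push_cast
  rfl

theorem evc_degen {R : Type*} [CommRing R] {X : Type} [TopologicalSpace X] {S : Set X} {d M : ℕ}
    {Φ : (ℕ → X) → R} (hΦ : Nrm d Φ) {z : Cube X d →₀ ℤ} (hz : z ∈ degen X S d) :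
    evc M d Φ z = 0 := by
  unfold evc
  rw [Finsupp.linearCombination_apply]
  refine Finset.sum_eq_zero fun c hc => ?_
  obtain ⟨-, i, hi⟩ := hz (Finset.mem_coe.2 hc)
  have h1 : ev d (fun _ => M) Φ (fun x : Q => c fun i => x i) = 0 := by
    refine Pool.Agent.Helper76.Freq.ev_degenerate hΦ i.2 fun x x' hx => ?_
    exact hi (fun j => x j) (fun j => x' j) fun j hj => hx j fun h => hj (Fin.ext h)
  beta_reduce
  rw [h1, smul_zero]

end Pool.Agent.Helper50.Drop
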